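import Pool.Agent.helper11.RPQ.SpecG
import Pool.Agent.helper62.RS.GLC

/-!
# MP_07c750, project RPQ, row PIG: detection
-/

set_option autoImplicit false

open scoped MatrixGroups ContDiff Topology UpperHalfPlane ComplexConjugate
open UpperHalfPlane MeasureTheory Filter Set

namespace Pool.Agent.RPQ

open Pool.Agent.RS
open Pool.Agent.MS (BA BB st pf gk Dk amk)

theorem PIG_aadd (s t : ℝ) : aM (s + t) = aM s * aM t := by
  obtain ⟨-, -, -, -, -, -, -, -, -, -, h, -⟩ := GLC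
  exact h s t

theorem PIG_acont : Continuous aM := by
  obtain ⟨-, -, -, h, -⟩ := GLC
  exact h

theorem PIG_a0 : aM 0 = 1 := by
  have h := PIG_aadd 0 0
  rw [add_zero] at h
  exact (mul_eq_left.mp h.symm)

theorem PIG_dI (t : ℝ) : dist (aM t • I : ℍ) I = |t| := by
  obtain ⟨-, -, -, -, -, -, -, hA, -⟩ := GLC
  have h := hA t I
  have h1 : (aM t • I : ℍ).re = 0 := by
    have h1 := congrArg Complex.re h
    simpa using h1
  have h2 : (aM t • I : ℍ).im = Real.exp t := by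
    have h1 := congrArg Complex.im h
    have h2 : ((Real.exp t : ℂ) * ((I : ℍ) : ℂ)).im = Real.exp t := by
      rw [Complex.im_ofReal_mul]
      exact mul_one _
    rw [h2] at h1
    exact h1
  rw [UpperHalfPlane.dist_of_re_eq (by rw [h1]; simp), h2, Real.log_exp]
  simp

theorem PIG_smul (g : SL(2, ℝ)) (z w : ℍ) : dist (g • z : ℍ) (g • w) = dist z w := dist_smul g z w

theorem PIG_dg (P : SL(2, ℝ)) (s s' : ℝ) : dist ((P * aM s) • I : ℍ) ((P * aM s') • I) = |s - s'| := by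
  have e : P * aM s = (P * aM s') * aM (s - s') := by
    rw [mul_assoc, ← PIG_aadd]
    congr 2
    ring
  rw [e, mul_smul (P * aM s') (aM (s - s')) I, PIG_smul, PIG_dI]

theorem PIG_ccd (χ : ℍ → ℝ) (h : QU.CD ∞ χ) : Continuous χ := by
  have h1 : ContinuousOn (QU.onC χ) {w : ℂ | 0 < w.im} := h.continuousOn
  have h2 : Continuous (fun z : ℍ => QU.onC χ (z : ℂ)) :=
    h1.comp_continuous UpperHalfPlane.continuous_coe (fun z => z.im_pos)
  have h3 : (fun z : ℍ => QU.onC χ (z : ℂ)) = χ := by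
    funext z
    simp only [QU.onC, ofComplex_apply]
  rwa [h3] at h2

theorem PIG_cont (χ : ℍ → ℝ) (h : Continuous χ) (P : SL(2, ℝ)) : Continuous fun s : ℝ => χ ((P * aM s) • I) := by
  have h1 : Continuous fun g : SL(2, ℝ) => (g • I : ℍ) := isProperMap_smul_I.continuous
  exact h.comp (h1.comp (continuous_const.mul PIG_acont))

theorem PIG_low (χ : ℍ → ℝ) (h : Continuous χ) (h0 : ∀ z, 0 ≤ χ z) (P : SL(2, ℝ)) (K t c ρ : ℝ) (hK : 0 ≤ K) (hρ : 0 < ρ)
    (h1 : 0 ≤ c - ρ / 4) (h2 : c + ρ / 4 ≤ t) (hone : ∀ s, |s - c| ≤ ρ / 4 → χ ((P * aM s) • I) = 1) :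
    K * (ρ / 2) ≤ th χ K t P := by
  unfold th
  apply mul_le_mul_of_nonneg_left _ hK
  have hc := PIG_cont χ h P
  have i1 : ∀ a b : ℝ, IntervalIntegrable (fun s : ℝ => χ ((P * aM s) • I)) volume a b := fun a b => hc.intervalIntegrable a b
  have e1 : ∫ s in (0 : ℝ)..t, χ ((P * aM s) • I) = (∫ s in (0 : ℝ)..(c - ρ / 4), χ ((P * aM s) • I)) +
      (∫ s in (c - ρ / 4)..(c + ρ / 4), χ ((P * aM s) • I)) + ∫ s in (c + ρ / 4)..t, χ ((P * aM s) • I) := by
    rw [intervalIntegral.integral_add_adjacent_intervals (i1 _ _) (i1 _ _),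
      intervalIntegral.integral_add_adjacent_intervals (i1 _ _) (i1 _ _)]
  have e2 : ∫ s in (c - ρ / 4)..(c + ρ / 4), χ ((P * aM s) • I) = ρ / 2 := by
    have : ∫ s in (c - ρ / 4)..(c + ρ / 4), χ ((P * aM s) • I) = ∫ s in (c - ρ / 4)..(c + ρ / 4), (1 : ℝ) := by
      apply intervalIntegral.integral_congr
      intro s hs
      rw [uIcc_of_le (by linarith)] at hs
      apply hone
      rw [abs_le]
      constructor <;> linarith [hs.1, hs.2]
    rw [this, intervalIntegral.integral_const, smul_eq_mul, mul_one]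
    ring
  have e3 : 0 ≤ ∫ s in (0 : ℝ)..(c - ρ / 4), χ ((P * aM s) • I) :=
    intervalIntegral.integral_nonneg h1 fun s _ => h0 _
  have e4 : 0 ≤ ∫ s in (c + ρ / 4)..t, χ ((P * aM s) • I) :=
    intervalIntegral.integral_nonneg h2 fun s _ => h0 _
  rw [e1, e2]
  linarith

theorem PIG_th0 (χ : ℍ → ℝ) (h0 : ∀ z, 0 ≤ χ z) (P : SL(2, ℝ)) (K t : ℝ) (hK : 0 ≤ K) (ht : 0 ≤ t) : 0 ≤ th χ K t P := by
  unfold th
  exact mul_nonneg hK (intervalIntegral.integral_nonneg ht fun s _ => h0 _)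

theorem PIG_zero (χ : ℍ → ℝ) (P : SL(2, ℝ)) (K t : ℝ) (ht : 0 ≤ t)
    (h : ∀ s : ℝ, 0 < s → s < t → χ ((P * aM s) • I) = 0) : th χ K t P = 0 := by
  unfold th
  rw [intervalIntegral.integral_of_le ht, integral_Ioc_eq_integral_Ioo]
  have : ∫ s in Ioo 0 t, χ ((P * aM s) • I) = ∫ s in Ioo 0 t, (0 : ℝ) := by
    apply setIntegral_congr_fun measurableSet_Ioo
    intro s hs
    exact h s hs.1 hs.2
  rw [this]
  simp

/-- a positive phase gives a time where the bump does not vanish -/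
theorem PIG_pos (χ : ℍ → ℝ) (K t : ℝ) (N : ℕ) (g : SL(2, ℝ)) (b : ℕ → SL(2, ℝ)) (ht : 0 ≤ t)
    (h : TH χ K t N g b ≠ 0) : ∃ (i : ℕ) (s : ℝ), i < N ∧ 0 < s ∧ s < t ∧ χ ((pth t g b i * aM s) • I) ≠ 0 := by
  by_contra hcon
  push Not at hcon
  apply h
  unfold TH
  apply Finset.sum_eq_zero
  intro i hi
  rw [Finset.mem_range] at hi
  exact PIG_zero χ _ K t ht fun s h1 h2 => hcon i s hi h1 h2

/-- the pigeonhole principle -/
theorem PIG_php {β : Type} [DecidableEq β] (G : Finset ℕ) (Y : Finset β) (f : ℕ → β) (L : ℕ) (hf : ∀ k ∈ G, f k ∈ Y)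
    (hc : Y.card * L < G.card) : ∃ k ∈ G, ∃ k' ∈ G, k + L ≤ k' ∧ f k = f k' := by
  obtain ⟨y, _, hy⟩ := Finset.exists_lt_card_fiber_of_mul_lt_card_of_maps_to hf hc
  set S := G.filter (fun x => f x = y) with hS
  have hne : S.Nonempty := by
    rw [← Finset.card_pos]; omega
  have h1 := S.min'_mem hne
  have h2 := S.max'_mem hne
  have hsub : S ⊆ Finset.Icc (S.min' hne) (S.max' hne) := by
    intro k hk
    rw [Finset.mem_Icc]
    exact ⟨S.min'_le _ hk, S.le_max' _ hk⟩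
  have hcard := Finset.card_le_card hsub
  rw [Nat.card_Icc] at hcard
  have h1' := Finset.mem_filter.mp h1
  have h2' := Finset.mem_filter.mp h2
  exact ⟨S.min' hne, h1'.1, S.max' hne, h2'.1, by omega, h1'.2.trans h2'.2.symm⟩

/-- moving along the flow -/
theorem PIG_nr (CT ρ1 ε e : ℝ) (X : SL(2, ℝ)) (hρ1 : 0 < ρ1) (hρ2 : ρ1 ≤ 1) (he : |e| ≤ ρ1) (hε : ε ≤ CT * ρ1 / 2)
    (hX : EN.nr ε X) : EN.nr ((CT + 1) * ρ1) (aM e * X) := by
  have hb : ∀ x : ℝ, |x| ≤ ρ1 / 2 → |Real.exp x - 1| ≤ ρ1 ∧ |Real.exp x| ≤ 2 := by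
    intro x hx
    have h1 := Real.abs_exp_sub_one_le (x := x) (by linarith)
    have h2 : |Real.exp x - 1| ≤ ρ1 := by linarith
    refine ⟨h2, ?_⟩
    have h3 := abs_le.mp h2
    rw [abs_of_pos (Real.exp_pos x)]
    linarith
  have key : ∀ x A δ : ℝ, |x - δ| < ε → |δ| ≤ 1 → |A - 1| ≤ ρ1 → |A| ≤ 2 → |A * x - δ| < (CT + 1) * ρ1 := by
    intro x A δ h1 h2 h3 h4
    have e1 : A * x - δ = A * (x - δ) + (A - 1) * δ := by ring
    have e2 : |A * (x - δ)| ≤ 2 * |x - δ| := by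
      rw [abs_mul]; exact mul_le_mul_of_nonneg_right h4 (abs_nonneg _)
    have e3 : |(A - 1) * δ| ≤ ρ1 := by
      rw [abs_mul]
      calc |A - 1| * |δ| ≤ ρ1 * 1 := mul_le_mul h3 h2 (abs_nonneg _) hρ1.le
        _ = ρ1 := mul_one _
    rw [e1]
    refine lt_of_le_of_lt (abs_add_le _ _) ?_
    linarith
  have he1 : |e / 2| ≤ ρ1 / 2 := by rw [abs_div, abs_two]; linarith
  have he2 : |-(e / 2)| ≤ ρ1 / 2 := by rw [abs_neg]; exact he1
  obtain ⟨a1, a2⟩ := hb _ he1
  obtain ⟨b1, b2⟩ := hb _ he2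
  intro i j
  have hij := hX i j
  have hδ : |(1 : Matrix (Fin 2) (Fin 2) ℝ) i j| ≤ 1 := by
    fin_cases i <;> fin_cases j <;> simp
  have hm : (aM e * X).1 i j = (if i = 0 then Real.exp (e / 2) else Real.exp (-(e / 2))) * X.1 i j := by
    have e0 : (aM e * X).1 = (aM e).1 * X.1 := rfl
    rw [e0, Matrix.mul_apply, Fin.sum_univ_two]
    fin_cases i <;> simp [aM]
  rw [hm]
  split_ifs
  · exact key _ _ _ hij hδ a1 a2
  · exact key _ _ _ hij hδ b1 b2

theorem PIG_proof (hTPT : TPT_stmt) (hINJ : INJ_stmt) : PIG_stmt := by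
  classical
  intro Γ κ hΓ
  obtain ⟨CT, hCT1, hT⟩ := hTPT
  obtain ⟨⟨i0, hi0, hi01, hinj⟩, -⟩ := hINJ Γ hΓ
  have hCT0 : 0 < CT := by linarith
  set C := max (CT + 1) (2 * (4 / i0 + 1)) with hC
  have hC1 : CT + 1 ≤ C := le_max_left _ _
  have hC2 : 2 * (4 / i0 + 1) ≤ C := le_max_right _ _
  refine ⟨C, min (i0 / 4) (1 / CT), by linarith, lt_min (by positivity) (by positivity), ?_, ?_⟩
  · refine (min_le_left _ _).trans ?_
    linarith
  intro C0 ρ ρ1 K t J p χ N nc g g' b b' hρ hρ1 hρ10 ht hK hnc hNet hUnd s' hs0 hs1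
  have hρa : ρ1 ≤ i0 / 4 := hρ10.trans (min_le_left _ _)
  have hρb : CT * ρ1 ≤ 1 := by
    have := hρ10.trans (min_le_right _ _)
    rw [le_div_iff₀ hCT0] at this
    linarith
  have hρc : ρ1 ≤ 1 := by linarith
  have ht0 : 0 < t := by linarith
  have hK0 : 0 < K := lt_of_lt_of_le (by positivity) hK
  have hKρ : 4 ≤ K * (ρ / 2) := by
    have : 8 / ρ * (ρ / 2) ≤ K * (ρ / 2) := mul_le_mul_of_nonneg_right hK (by positivity)
    have e : 8 / ρ * (ρ / 2) = 4 := by field_simp; norm_num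
    linarith
  have hNt : 0 ≤ (N : ℝ) * t := by positivity
  -- 8 ρ ≤ ρ1
  have h8 : 8 * ρ ≤ ρ1 := by
    have h1 : 1 ≤ C * (N * t + 1) / ρ1 := by
      rw [le_div_iff₀ hρ1, one_mul]
      nlinarith
    have h2 : (0 : ℝ) ≤ nc := Nat.cast_nonneg _
    have h3 : 1 ≤ ρ1 / (8 * ρ) := by linarith
    rw [le_div_iff₀ (by positivity)] at h3
    linarith
  -- the segment of s'
  set i' := ⌊s' / t⌋₊ with hi'
  have hi'1 : (i' : ℝ) * t ≤ s' := by
    have := Nat.floor_le (div_nonneg hs0 ht0.le)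
    rw [← hi', le_div_iff₀ ht0] at this
    exact this
  have hi'2 : s' < (i' + 1) * t := by
    have := Nat.lt_floor_add_one (s' / t)
    rw [← hi', div_lt_iff₀ ht0] at this
    exact this
  have hi'N : i' < N := by
    have h1 : (i' : ℝ) * t < N * t := by linarith
    have h2 : (i' : ℝ) < N := lt_of_mul_lt_mul_right h1 ht0.le
    exact_mod_cast h2
  set P' := pth t g' b' i' with hP'
  set q : ℝ → SL(2, ℝ) := fun s => P' * aM (s - i' * t) with hq
  have hdq : ∀ u v : ℝ, dist (q u • I : ℍ) (q v • I) = |u - v| := by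
    intro u v
    simp only [hq]
    rw [PIG_dg]
    congr 1
    ring
  have hfr' : fr t g' b' s' = q s' := rfl
  set a := min s' ((i' + 1) * t - ρ1) with ha
  have ha1 : (i' : ℝ) * t ≤ a := le_min hi'1 (by nlinarith)
  have ha2 : a ≤ s' := min_le_left _ _
  have ha3 : a + ρ1 ≤ (i' + 1) * t := by
    have := min_le_right s' ((i' + 1) * t - ρ1)
    linarith
  have ha4 : s' ≤ a + ρ1 := by
    rcases min_choice s' ((i' + 1) * t - ρ1) with h | h
    · rw [ha, h]; linarith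
    · rw [ha, h]; linarith
  set sp : ℕ → ℝ := fun k => a + ρ / 4 + 4 * ρ * k with hsp
  set m := ⌈ρ1 / (8 * ρ)⌉₊ with hm
  have hsk : ∀ k : ℕ, k < m → a + ρ / 4 ≤ sp k ∧ sp k + ρ / 4 ≤ a + ρ1 := by
    intro k hk
    rw [hm, Nat.lt_ceil, lt_div_iff₀ (by positivity)] at hk
    have h0 : (0 : ℝ) ≤ k := Nat.cast_nonneg _
    simp only [hsp]
    constructor
    · nlinarith
    · nlinarith
  -- the points of the net
  have hcov : ∀ k : ℕ, ∃ (j : Fin J) (γ : Γ), dist (q (sp k) • I : ℍ) ((γ : SL(2, ℝ)) • p j) ≤ ρ / 4 := fun k => hNet.cover _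
  choose jj γγ hjj using hcov
  have hΓinj : ∀ (γ η : Γ) (z : ℍ), dist ((γ : SL(2, ℝ)) • z : ℍ) ((η : SL(2, ℝ)) • z) < i0 → γ = η := by
    intro γ η z hz
    have h1 : dist (((η⁻¹ * γ : Γ) : SL(2, ℝ)) • z : ℍ) z < i0 := by
      have e : dist (((η⁻¹ * γ : Γ) : SL(2, ℝ)) • z : ℍ) z = dist ((γ : SL(2, ℝ)) • z : ℍ) ((η : SL(2, ℝ)) • z) := by
        rw [← PIG_smul (η : SL(2, ℝ)) _ z, ← mul_smul]
        congr 2
        push_cast
        group
      rw [e]; exact hz
    have h2 := hinj _ _ h1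
    exact (inv_mul_eq_one.mp h2).symm
  have hjinj : ∀ k k' : ℕ, k < k' → k' < m → jj k ≠ jj k' := by
    intro k k' hkk hk' hj
    obtain ⟨a1, a2⟩ := hsk k (hkk.trans hk')
    obtain ⟨b1, b2⟩ := hsk k' hk'
    have d1 := hjj k
    have d2 := hjj k'
    rw [← hj] at d2
    have d3 := hdq (sp k) (sp k')
    have d4 : |sp k - sp k'| ≤ ρ1 := by
      rw [abs_le]; constructor <;> linarith
    have hγ : γγ k = γγ k' := by
      apply hΓinj _ _ (p (jj k))
      have t1 := dist_triangle ((γγ k : SL(2, ℝ)) • p (jj k) : ℍ) (q (sp k) • I) ((γγ k' : SL(2, ℝ)) • p (jj k))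
      have t2 := dist_triangle (q (sp k) • I : ℍ) (q (sp k') • I) ((γγ k' : SL(2, ℝ)) • p (jj k))
      rw [dist_comm] at d1
      linarith
    rw [← hγ] at d2
    have t3 := dist_triangle (q (sp k) • I : ℍ) ((γγ k : SL(2, ℝ)) • p (jj k)) (q (sp k') • I)
    rw [dist_comm] at d2
    have e1 : sp k' - sp k = 4 * ρ * ((k' : ℝ) - k) := by simp only [hsp]; ring
    have e2 : (1 : ℝ) ≤ (k' : ℝ) - k := by
      have : (k : ℝ) + 1 ≤ k' := by exact_mod_cast hkk
      linarith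
    have e3 : 4 * ρ ≤ sp k' - sp k := by
      rw [e1]
      have : 4 * ρ * 1 ≤ 4 * ρ * ((k' : ℝ) - k) := mul_le_mul_of_nonneg_left e2 (by positivity)
      linarith
    rw [d3, abs_sub_comm, abs_of_pos (by linarith)] at t3
    linarith
  -- the phase of the path of g'
  have hbig : ∀ k : ℕ, k < m → 4 ≤ TH (χ (jj k)) K t N g' b' := by
    intro k hk
    obtain ⟨a1, a2⟩ := hsk k hk
    have hnn : ∀ z, 0 ≤ χ (jj k) z := fun z => (hNet.bd (jj k) z).1
    have h1 : K * (ρ / 2) ≤ th (χ (jj k)) K t (pth t g' b' i') := by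
      apply PIG_low (χ (jj k)) (PIG_ccd _ (hNet.smooth _)) hnn _ K t (sp k - i' * t) ρ hK0.le hρ
      · linarith
      · linarith
      · intro s hs
        apply hNet.one (jj k) _ (γγ k)
        have d1 := hjj k
        have d2 : dist ((pth t g' b' i' * aM s) • I : ℍ) (q (sp k) • I) ≤ ρ / 4 := by
          simp only [hq]
          rw [← hP', PIG_dg]
          have : s - (sp k - i' * t) = s - (sp k - i' * t) := rfl
          exact hs
        have t1 := dist_triangle ((pth t g' b' i' * aM s) • I : ℍ) (q (sp k) • I) ((γγ k : SL(2, ℝ)) • p (jj k))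
        linarith
    have h2 : th (χ (jj k)) K t (pth t g' b' i') ≤ TH (χ (jj k)) K t N g' b' := by
      unfold TH
      exact Finset.single_le_sum (f := fun j => th (χ (jj k)) K t (pth t g' b' j))
        (fun j _ => PIG_th0 _ hnn _ K t hK0.le ht0.le) (Finset.mem_range.mpr hi'N)
    linarith
  -- the undetected indices
  set D : Set (Fin J) := {j : Fin J | 1 ≤ |TH (χ j) K t N g b - TH (χ j) K t N g' b'|} with hD
  set G := (Finset.range m).filter (fun k => jj k ∉ D) with hG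
  have hBc : ((Finset.range m).filter (fun k => jj k ∈ D)).card < nc := by
    refine lt_of_le_of_lt ?_ hUnd
    have h1 : ((Finset.range m).filter (fun k => jj k ∈ D)).card = (((Finset.range m).filter (fun k => jj k ∈ D)).image jj).card := by
      symm
      apply Finset.card_image_of_injOn
      intro k hk k' hk' hkk
      simp only [Finset.coe_filter, Finset.mem_range, mem_ofPred_eq] at hk hk'
      rcases lt_trichotomy k k' with h | h | h
      · exact absurd hkk (hjinj k k' h hk'.1)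
      · exact h
      · exact absurd hkk.symm (hjinj k' k h hk.1)
    rw [h1, ← Set.ncard_coe_finset]
    apply Set.ncard_le_ncard _ (Set.toFinite _)
    intro j hj
    rw [Finset.mem_coe, Finset.mem_image] at hj
    obtain ⟨k, hk, rfl⟩ := hj
    exact (Finset.mem_filter.mp hk).2
  have hGc : (m : ℝ) < G.card + nc := by
    have h1 := Finset.card_filter_add_card_filter_not (s := Finset.range m) (fun k => jj k ∈ D)
    rw [Finset.card_range] at h1
    have h2 : m < G.card + nc := by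
      have : ((Finset.range m).filter (fun k => ¬ jj k ∈ D)).card = G.card := rfl
      omega
    exact_mod_cast h2
  have hmr : ρ1 / (8 * ρ) ≤ m := Nat.le_ceil _
  -- the times for g
  have hgood : ∀ k : ℕ, ∃ (i : ℕ) (σ : ℝ) (η : Γ), k ∈ G → (i < N ∧ 0 < σ ∧ σ < t ∧
      dist (q (sp k) • I : ℍ) ((η : SL(2, ℝ)) • ((pth t g b i * aM σ) • I : ℍ)) ≤ 5 * ρ / 4) := by
    intro k
    by_cases hk : k ∈ G
    · have hk1 := Finset.mem_filter.mp hk
      have hk2 : k < m := Finset.mem_range.mp hk1.1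
      have h1 := hbig k hk2
      have h2 : |TH (χ (jj k)) K t N g b - TH (χ (jj k)) K t N g' b'| < 1 := by
        by_contra hcon
        exact hk1.2 (not_lt.mp hcon)
      have h3 := abs_lt.mp h2
      obtain ⟨i, σ, c1, c2, c3, c4⟩ := PIG_pos (χ (jj k)) K t N g b ht0.le (by intro h; linarith [h3.1])
      obtain ⟨γ, hγ⟩ := hNet.supp _ _ c4
      refine ⟨i, σ, γγ k * γ⁻¹, fun _ => ⟨c1, c2, c3, ?_⟩⟩
      have d1 := hjj k
      have e : dist ((γγ k : SL(2, ℝ)) • p (jj k) : ℍ) (((γγ k * γ⁻¹ : Γ) : SL(2, ℝ)) • ((pth t g b i * aM σ) • I : ℍ)) ≤ ρ := by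
        have e1 : ((γγ k : SL(2, ℝ)) • p (jj k) : ℍ) = ((γγ k * γ⁻¹ : Γ) : SL(2, ℝ)) • ((γ : SL(2, ℝ)) • p (jj k)) := by
          rw [← mul_smul]
          congr 1
          push_cast
          group
        rw [e1, PIG_smul, dist_comm]
        exact hγ
      have t1 := dist_triangle (q (sp k) • I : ℍ) ((γγ k : SL(2, ℝ)) • p (jj k)) (((γγ k * γ⁻¹ : Γ) : SL(2, ℝ)) • ((pth t g b i * aM σ) • I : ℍ))
      linarith
    · exact ⟨0, 0, 1, fun h => absurd h hk⟩
  choose ii σσ ηη hgd using hgood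
  -- pigeonhole
  set L := ⌈1 / ρ1⌉₊ with hL
  have hL1 : 1 / ρ1 ≤ L := Nat.le_ceil _
  have hL2 : (L : ℝ) ≤ 2 / ρ1 := by
    have h1 : (L : ℝ) < 1 / ρ1 + 1 := Nat.ceil_lt_add_one (by positivity)
    have h2 : 1 ≤ 1 / ρ1 := by rw [le_div_iff₀ hρ1]; linarith
    have e : 2 / ρ1 = 1 / ρ1 + 1 / ρ1 := by ring
    rw [e]; linarith
  set Y := Finset.range N ×ˢ Finset.range (⌊t / (i0 / 4)⌋₊ + 1) with hY
  obtain ⟨k, hk, k', hk', hkk, hfk⟩ := PIG_php G Y (fun k => (ii k, ⌊σσ k / (i0 / 4)⌋₊)) L (by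
    intro k hk
    obtain ⟨c1, c2, c3, c4⟩ := hgd k hk
    rw [hY, Finset.mem_product, Finset.mem_range, Finset.mem_range]
    refine ⟨c1, Nat.lt_succ_of_le ?_⟩
    exact Nat.floor_le_floor (div_le_div_of_nonneg_right c3.le (by positivity))) (by
    have h1 : ((Y.card * L : ℕ) : ℝ) < G.card := by
      have h2 : (Y.card : ℝ) ≤ N * t * (4 / i0 + 1) := by
        rw [hY, Finset.card_product, Finset.card_range, Finset.card_range]
        push_cast
        have h3 : (⌊t / (i0 / 4)⌋₊ : ℝ) ≤ t / (i0 / 4) := Nat.floor_le (by positivity)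
        have h4 : t / (i0 / 4) = t * (4 / i0) := by field_simp
        have h5 : (⌊t / (i0 / 4)⌋₊ : ℝ) + 1 ≤ t * (4 / i0 + 1) := by
          have h3' : (⌊t / (i0 / 4)⌋₊ : ℝ) ≤ t * (4 / i0) := h3.trans_eq h4
          rw [mul_add, mul_one]
          linarith
        calc (N : ℝ) * ((⌊t / (i0 / 4)⌋₊ : ℝ) + 1) ≤ N * (t * (4 / i0 + 1)) := mul_le_mul_of_nonneg_left h5 (Nat.cast_nonneg _)
          _ = N * t * (4 / i0 + 1) := by ring
      have h6 : ((Y.card * L : ℕ) : ℝ) ≤ C * (N * t + 1) / ρ1 := by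
        push_cast
        have hi : 0 ≤ 4 / i0 + 1 := by positivity
        calc (Y.card : ℝ) * L ≤ (N * t * (4 / i0 + 1)) * (2 / ρ1) := mul_le_mul h2 hL2 (Nat.cast_nonneg _) (by positivity)
          _ = (2 * (4 / i0 + 1)) * (N * t) / ρ1 := by ring
          _ ≤ C * (N * t + 1) / ρ1 := by
            apply div_le_div_of_nonneg_right _ hρ1.le
            exact mul_le_mul hC2 (by linarith) hNt (by linarith)
      linarith
    exact_mod_cast h1)
  obtain ⟨c1, c2, c3, c4⟩ := hgd k hk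
  obtain ⟨c1', c2', c3', c4'⟩ := hgd k' hk'
  simp only [Prod.mk.injEq] at hfk
  obtain ⟨f1, f2⟩ := hfk
  have hkm : k' < m := Finset.mem_range.mp (Finset.mem_filter.mp hk').1
  have hL0 : 1 ≤ L := by
    rw [hL]; exact Nat.one_le_ceil_iff.mpr (by positivity)
  have hklt : k < k' := by omega
  obtain ⟨a1, a2⟩ := hsk k (hklt.trans hkm)
  obtain ⟨b1, b2⟩ := hsk k' hkm
  -- the times are close
  have hσ : |σσ k - σσ k'| ≤ i0 / 4 := by
    have h1 := Nat.floor_le (a := σσ k / (i0 / 4)) (by positivity)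
    have h2 := Nat.lt_floor_add_one (σσ k / (i0 / 4))
    have h3 := Nat.floor_le (a := σσ k' / (i0 / 4)) (by positivity)
    have h4 := Nat.lt_floor_add_one (σσ k' / (i0 / 4))
    rw [← f2] at h3 h4
    have h5 : |σσ k / (i0 / 4) - σσ k' / (i0 / 4)| ≤ 1 := by
      rw [abs_le]; constructor <;> linarith
    have h6 : σσ k / (i0 / 4) - σσ k' / (i0 / 4) = (σσ k - σσ k') / (i0 / 4) := by ring
    rw [h6, abs_div, abs_of_pos (by positivity : 0 < i0 / 4), div_le_iff₀ (by positivity)] at h5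
    linarith
  rw [← f1] at c4'
  set Q := pth t g b (ii k) with hQ
  have hdQ := PIG_dg Q (σσ k) (σσ k')
  have hdsp := hdq (sp k) (sp k')
  have hspd : |sp k - sp k'| ≤ ρ1 := by
    rw [abs_le]; constructor <;> linarith
  -- the same group element
  have hη : ηη k = ηη k' := by
    apply hΓinj _ _ ((Q * aM (σσ k)) • I)
    have t1 := dist_triangle ((ηη k : SL(2, ℝ)) • ((Q * aM (σσ k)) • I : ℍ) : ℍ) (q (sp k) • I) ((ηη k' : SL(2, ℝ)) • ((Q * aM (σσ k)) • I : ℍ))
    have t2 := dist_triangle (q (sp k) • I : ℍ) (q (sp k') • I) ((ηη k' : SL(2, ℝ)) • ((Q * aM (σσ k)) • I : ℍ))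
    have t3 := dist_triangle (q (sp k') • I : ℍ) ((ηη k' : SL(2, ℝ)) • ((Q * aM (σσ k')) • I : ℍ)) ((ηη k' : SL(2, ℝ)) • ((Q * aM (σσ k)) • I : ℍ))
    have t4 : dist ((ηη k' : SL(2, ℝ)) • ((Q * aM (σσ k')) • I : ℍ) : ℍ) ((ηη k' : SL(2, ℝ)) • ((Q * aM (σσ k)) • I : ℍ)) ≤ i0 / 4 := by
      rw [PIG_smul, dist_comm, hdQ]; exact hσ
    have t5 : dist ((ηη k : SL(2, ℝ)) • ((Q * aM (σσ k)) • I : ℍ) : ℍ) (q (sp k) • I) ≤ 5 * ρ / 4 := by
      rw [dist_comm]; exact c4
    linarith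
  rw [← hη] at c4'
  -- two points
  set h := (q (sp k))⁻¹ * ((ηη k : SL(2, ℝ)) * (Q * aM (σσ k))) with hh
  have hDpos : 4 * ρ / ρ1 ≤ sp k' - sp k := by
    have e1 : sp k' - sp k = 4 * ρ * ((k' : ℝ) - k) := by simp only [hsp]; ring
    have e2 : (k : ℝ) + L ≤ k' := by exact_mod_cast hkk
    have e3 : 1 / ρ1 ≤ (k' : ℝ) - k := by linarith
    calc 4 * ρ / ρ1 = 4 * ρ * (1 / ρ1) := by ring
      _ ≤ 4 * ρ * ((k' : ℝ) - k) := mul_le_mul_of_nonneg_left e3 (by positivity)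
      _ = sp k' - sp k := e1.symm
  have hD0 : 0 < sp k' - sp k := lt_of_lt_of_le (by positivity) hDpos
  have hCl := hT h (sp k' - sp k) (σσ k' - σσ k) (2 * ρ) (by positivity) hD0
    (by have := (abs_le.mp hspd).1; linarith) (by rw [abs_sub_comm]; linarith)
    (by
      refine le_trans ?_ hDpos
      rw [le_div_iff₀ hρ1]
      nlinarith)
    (by
      have e : dist (h • I : ℍ) I = dist (q (sp k) • I : ℍ) ((ηη k : SL(2, ℝ)) • ((Q * aM (σσ k)) • I : ℍ)) := by
        rw [dist_comm (q (sp k) • I : ℍ), ← PIG_smul (q (sp k))⁻¹ _ (q (sp k) • I), inv_smul_smul, hh]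
        simp only [mul_smul]
      rw [e]; linarith)
    (by
      have e0 : h * aM (σσ k' - σσ k) = (q (sp k))⁻¹ * ((ηη k : SL(2, ℝ)) * (Q * aM (σσ k'))) := by
        rw [hh]
        have : aM (σσ k') = aM (σσ k) * aM (σσ k' - σσ k) := by
          rw [← PIG_aadd]; congr 1; ring
        rw [this]
        simp only [mul_assoc]
      have e1 : (aM (sp k' - sp k) • I : ℍ) = (q (sp k))⁻¹ • (q (sp k') • I : ℍ) := by
        rw [← mul_smul]
        congr 1
        simp only [hq]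
        have : aM (sp k' - i' * t) = aM (sp k - i' * t) * aM (sp k' - sp k) := by
          rw [← PIG_aadd]; congr 1; ring
        rw [this]
        group
      have e : dist ((h * aM (σσ k' - σσ k)) • I : ℍ) (aM (sp k' - sp k) • I) =
          dist (q (sp k') • I : ℍ) ((ηη k : SL(2, ℝ)) • ((Q * aM (σσ k')) • I : ℍ)) := by
        rw [e0, e1, dist_comm (q (sp k') • I : ℍ), ← PIG_smul (q (sp k))⁻¹ _ (q (sp k') • I)]
        simp only [mul_smul]
      rw [e]; linarith)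
  obtain ⟨n, hn, hnr⟩ := hCl
  -- the conclusion
  refine ⟨ii k * t + σσ k, ηη k, by positivity, ?_, n, hn, ?_⟩
  · have h1 : ((ii k : ℝ) + 1) * t ≤ N * t := by
      apply mul_le_mul_of_nonneg_right _ ht0.le
      exact_mod_cast c1
    linarith
  · have hfl : ⌊(ii k * t + σσ k) / t⌋₊ = ii k := by
      rw [Nat.floor_eq_iff (by positivity)]
      constructor
      · rw [le_div_iff₀ ht0]; linarith
      · rw [div_lt_iff₀ ht0]; linarith
    have hfr : fr t g b (ii k * t + σσ k) = Q * aM (σσ k) := by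
      unfold fr
      rw [hfl]
      congr 2
      ring
    have hε : CT * (2 * ρ) / (sp k' - sp k) ≤ CT * ρ1 / 2 := by
      rw [div_le_iff₀ hD0]
      rw [div_le_iff₀ hρ1] at hDpos
      have : CT * (4 * ρ) ≤ CT * ((sp k' - sp k) * ρ1) := mul_le_mul_of_nonneg_left hDpos hCT0.le
      linarith
    have he : |-(s' - sp k)| ≤ ρ1 := by
      rw [abs_neg, abs_le]; constructor <;> linarith
    have hfin := PIG_nr CT ρ1 _ (-(s' - sp k)) _ hρ1 hρc he hε hnr
    have hEq : (fr t g' b' s')⁻¹ * ((ηη k : SL(2, ℝ)) * fr t g b (ii k * t + σσ k)) * kM (n * (Real.pi / 2)) =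
        aM (-(s' - sp k)) * (1⁻¹ * h * kM (n * (Real.pi / 2))) := by
      rw [hfr, hfr', hh]
      have e1 : q s' = q (sp k) * aM (s' - sp k) := by
        simp only [hq]
        rw [mul_assoc, ← PIG_aadd]
        congr 2
        ring
      have e2 : aM (-(s' - sp k)) = (aM (s' - sp k))⁻¹ := by
        rw [eq_inv_iff_mul_eq_one, ← PIG_aadd, neg_add_cancel, PIG_a0]
      rw [e1, e2, mul_inv_rev, inv_one, one_mul]
      simp only [mul_assoc]
    rw [hEq]
    intro u v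
    refine lt_of_lt_of_le (hfin u v) ?_
    exact mul_le_mul_of_nonneg_right hC1 hρ1.le

end Pool.Agent.RPQ
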